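import Mathlib

/-!
The measure-free integral representation argument behind norm attainment: from a positively
homogeneous function `ev` on the dual which satisfies the `p`-summing bound, one gets a positive
normalised functional on the bounded continuous functions on the unit ball which dominates
`|ev y| ^ p`, and its barycentre on `x*` is the attaining point.
-/

namespace X190.FB

open BoundedContinuousFunction

variable {E : Type*} [NormedAddCommGroup E] [NormedSpace ℝ E]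

/-- The closed unit ball. -/
abbrev Bl (E : Type*) [NormedAddCommGroup E] := {x : E // ‖x‖ ≤ 1}

theorem abs_le_nrm (y : E →L[ℝ] ℝ) (x : Bl E) : |y x.1| ≤ ‖y‖ := by
  have := y.le_opNorm x.1
  rw [Real.norm_eq_abs] at this
  calc |y x.1| ≤ ‖y‖ * ‖x.1‖ := this
    _ ≤ ‖y‖ * 1 := by
        apply mul_le_mul_of_nonneg_left x.2 (norm_nonneg _)
    _ = ‖y‖ := mul_one _

/-- Product of two functionals restricted to the ball. -/
noncomputable def pr (y z : E →L[ℝ] ℝ) : Bl E →ᵇ ℝ :=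
  BoundedContinuousFunction.ofNormedAddCommGroup (fun x => y x.1 * z x.1)
    ((y.continuous.comp continuous_subtype_val).mul (z.continuous.comp continuous_subtype_val))
    (‖y‖ * ‖z‖) (by
      intro x
      rw [Real.norm_eq_abs, abs_mul]
      exact mul_le_mul (abs_le_nrm y x) (abs_le_nrm z x) (abs_nonneg _) (norm_nonneg _))

@[simp] theorem pr_apply (y z : E →L[ℝ] ℝ) (x : Bl E) : pr y z x = y x.1 * z x.1 := rfl

/-- `|y| ^ p` restricted to the ball. -/
noncomputable def pw (p : ℝ) (hp : 1 ≤ p) (y : E →L[ℝ] ℝ) : Bl E →ᵇ ℝ :=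
  BoundedContinuousFunction.ofNormedAddCommGroup (fun x => |y x.1| ^ p)
    (((y.continuous.comp continuous_subtype_val).abs).rpow_const (fun _ => Or.inr (by linarith)))
    (‖y‖ ^ p) (by
      intro x
      rw [Real.norm_eq_abs, abs_of_nonneg (Real.rpow_nonneg (abs_nonneg _) _)]
      exact Real.rpow_le_rpow (abs_nonneg _) (abs_le_nrm y x) (by linarith))

@[simp] theorem pw_apply (p : ℝ) (hp : 1 ≤ p) (y : E →L[ℝ] ℝ) (x : Bl E) :
    pw p hp y x = |y x.1| ^ p := rfl

/-- The admissible upper values. -/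
def AA (p : ℝ) (ev : (E →L[ℝ] ℝ) → ℝ) (h : Bl E →ᵇ ℝ) : Set ℝ :=
  {r | ∃ l : List (E →L[ℝ] ℝ), ∀ x : Bl E,
    h x + (l.map fun y => |y x.1| ^ p).sum ≤ r + (l.map fun y => |ev y| ^ p).sum}

section

variable {p : ℝ} {ev : (E →L[ℝ] ℝ) → ℝ}

theorem AA_of_le (h : Bl E →ᵇ ℝ) (r : ℝ) (hr : ∀ x, h x ≤ r) : r ∈ AA p ev h :=
  ⟨[], by simpa using hr⟩

theorem AA_nonempty (h : Bl E →ᵇ ℝ) : (AA p ev h).Nonempty :=
  ⟨‖h‖, AA_of_le h _ fun x => (le_abs_self _).trans (h.norm_coe_le_norm x)⟩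

theorem AA_lower (hN : ∀ (l : List (E →L[ℝ] ℝ)) (K : ℝ),
      (∀ x : Bl E, (l.map fun y => |y x.1| ^ p).sum ≤ K) →
        (l.map fun y => |ev y| ^ p).sum ≤ K)
    (h : Bl E →ᵇ ℝ) {r : ℝ} (hr : r ∈ AA p ev h) : -‖h‖ ≤ r := by
  obtain ⟨l, hl⟩ := hr
  have := hN l (r + (l.map fun y => |ev y| ^ p).sum + ‖h‖) (by
    intro x
    have h1 := hl x
    have h2 : -‖h‖ ≤ h x := by
      have := h.norm_coe_le_norm x
      rw [Real.norm_eq_abs] at this
      linarith [neg_abs_le (h x)]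
    linarith)
  linarith

theorem AA_bdd (hN : ∀ (l : List (E →L[ℝ] ℝ)) (K : ℝ),
      (∀ x : Bl E, (l.map fun y => |y x.1| ^ p).sum ≤ K) →
        (l.map fun y => |ev y| ^ p).sum ≤ K)
    (h : Bl E →ᵇ ℝ) : BddBelow (AA p ev h) :=
  ⟨-‖h‖, fun _ hr => AA_lower hN h hr⟩

theorem AA_add {h k : Bl E →ᵇ ℝ} {r s : ℝ} (hr : r ∈ AA p ev h) (hs : s ∈ AA p ev k) :
    r + s ∈ AA p ev (h + k) := by
  obtain ⟨l, hl⟩ := hr
  obtain ⟨m, hm⟩ := hs
  refine ⟨l ++ m, fun x => ?_⟩
  have h1 := hl x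
  have h2 := hm x
  simp only [List.map_append, List.sum_append, BoundedContinuousFunction.coe_add, Pi.add_apply]
  linarith

theorem AA_smul (hp : 1 ≤ p) (hhom : ∀ (c : ℝ) y, 0 < c → ev (c • y) = c * ev y)
    {h : Bl E →ᵇ ℝ} {r c : ℝ} (hc : 0 < c)
    (hr : r ∈ AA p ev h) : c * r ∈ AA p ev (c • h) := by
  obtain ⟨l, hl⟩ := hr
  have hp0 : p ≠ 0 := by linarith
  have hcp : (c ^ (1 / p)) ^ p = c := by
    rw [← Real.rpow_mul hc.le, one_div, inv_mul_cancel₀ hp0, Real.rpow_one]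
  have hc' : 0 < c ^ (1 / p) := Real.rpow_pos_of_pos hc _
  refine ⟨l.map fun y => (c ^ (1 / p)) • y, fun x => ?_⟩
  have h1 : ((l.map fun y => (c ^ (1 / p)) • y).map fun y => |y x.1| ^ p)
      = l.map fun y => c * |y x.1| ^ p := by
    rw [List.map_map]
    apply List.map_congr_left
    intro y _
    simp only [Function.comp, _root_.smul_apply, smul_eq_mul]
    rw [abs_mul, abs_of_pos hc', Real.mul_rpow hc'.le (abs_nonneg _), hcp]
  have h2 : ((l.map fun y => (c ^ (1 / p)) • y).map fun y => |ev y| ^ p)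
      = l.map fun y => c * |ev y| ^ p := by
    rw [List.map_map]
    apply List.map_congr_left
    intro y _
    simp only [Function.comp]
    rw [hhom _ _ hc', abs_mul, abs_of_pos hc', Real.mul_rpow hc'.le (abs_nonneg _), hcp]
  rw [h1, h2, List.sum_map_mul_left, List.sum_map_mul_left]
  have := mul_le_mul_of_nonneg_left (hl x) hc.le
  simp only [BoundedContinuousFunction.coe_smul, smul_eq_mul]
  linarith

/-- The positive normalised functional dominating `|ev y| ^ p`. -/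
theorem exists_lam (hp : 1 ≤ p) (hhom : ∀ (c : ℝ) y, 0 < c → ev (c • y) = c * ev y)
    (hN : ∀ (l : List (E →L[ℝ] ℝ)) (K : ℝ),
      (∀ x : Bl E, (l.map fun y => |y x.1| ^ p).sum ≤ K) →
        (l.map fun y => |ev y| ^ p).sum ≤ K) :
    ∃ Λ : (Bl E →ᵇ ℝ) →ₗ[ℝ] ℝ, (∀ h r, (∀ x, h x ≤ r) → Λ h ≤ r) ∧
      ∀ y, |ev y| ^ p ≤ Λ (pw p hp y) := by
  classical
  let N : (Bl E →ᵇ ℝ) → ℝ := fun h => sInf (AA p ev h)
  have hNle : ∀ h r, r ∈ AA p ev h → N h ≤ r := fun h r hr => csInf_le (AA_bdd hN h) hr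
  have hNadd : ∀ h k, N (h + k) ≤ N h + N k := by
    intro h k
    have h1 : ∀ r ∈ AA p ev h, N (h + k) - r ≤ N k := by
      intro r hr
      apply le_csInf (AA_nonempty k)
      intro s hs
      have := hNle _ _ (AA_add hr hs)
      linarith
    have h2 : N (h + k) - N k ≤ N h := by
      apply le_csInf (AA_nonempty h)
      intro r hr
      have := h1 r hr
      linarith
    linarith
  have hNsmul : ∀ c : ℝ, 0 < c → ∀ h, N (c • h) = c * N h := by
    have key : ∀ c : ℝ, 0 < c → ∀ h, N (c • h) ≤ c * N h := by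
      intro c hc h
      have : c⁻¹ * N (c • h) ≤ N h := by
        apply le_csInf (AA_nonempty h)
        intro r hr
        have := hNle _ _ (AA_smul hp hhom hc hr)
        rw [inv_mul_le_iff₀ hc]
        exact this
      rwa [inv_mul_le_iff₀ hc] at this
    intro c hc h
    refine le_antisymm (key c hc h) ?_
    have := key c⁻¹ (inv_pos.mpr hc) (c • h)
    rw [smul_smul, inv_mul_cancel₀ hc.ne', one_smul] at this
    rw [← div_eq_inv_mul, le_div_iff₀ hc] at this
    linarith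
  have hN0 : 0 ≤ N 0 := by
    apply le_csInf (AA_nonempty 0)
    intro r hr
    have := AA_lower hN _ hr
    simpa using this
  obtain ⟨g, -, hg⟩ := exists_extension_of_le_sublinear
    (⟨⊥, 0⟩ : (Bl E →ᵇ ℝ) →ₗ.[ℝ] ℝ) N hNsmul hNadd (by
      rintro ⟨x, hx⟩
      have hx0 : x = 0 := by simpa using hx
      subst hx0
      simpa using hN0)
  refine ⟨g, fun h r hr => (hg h).trans (hNle _ _ (AA_of_le h r hr)), fun y => ?_⟩
  have h1 : -|ev y| ^ p ∈ AA p ev (-(pw p hp y)) := by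
    refine ⟨[y], fun x => ?_⟩
    simp
  have h2 := (hg (-(pw p hp y))).trans (hNle _ _ h1)
  rw [map_neg] at h2
  linarith

end

end X190.FB
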