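import Mathlib
import Pool.Agent.X190.FB.Lam

/-!
From the functional `Λ` to the attaining point.
-/

namespace X190.FB

open BoundedContinuousFunction

variable {E : Type*} [NormedAddCommGroup E] [NormedSpace ℝ E]

/-- The elementary pointwise bound. -/
theorem ptwise {p : ℝ} (hp : 1 ≤ p) {b z c : ℝ} (hb : |b| ≤ 1) (hz : |z| ≤ c) (hc : c ≤ 1 / p) :
    |b + z| ^ p ≤ 1 + p * (b * z) + p ^ 2 * c ^ 2 := by
  have hp0 : 0 < p := by linarith
  have hc1 : c ≤ 1 := hc.trans (by rw [div_le_one hp0]; exact hp)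
  have hz1 : |z| ≤ 1 := hz.trans hc1
  obtain ⟨hb1, hb2⟩ := abs_le.mp hb
  obtain ⟨hz2, hz3⟩ := abs_le.mp hz1
  have h1 : |b + z| ≤ 1 + b * z := by
    rw [abs_le]
    constructor
    · nlinarith [mul_nonneg (by linarith : 0 ≤ 1 + b) (by linarith : 0 ≤ 1 + z)]
    · nlinarith [mul_nonneg (by linarith : 0 ≤ 1 - b) (by linarith : 0 ≤ 1 - z)]
  have h0 : 0 ≤ 1 + b * z := (abs_nonneg _).trans h1
  have h2 : |b + z| ^ p ≤ (1 + b * z) ^ p := Real.rpow_le_rpow (abs_nonneg _) h1 hp0.le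
  have h3 : (1 + b * z) ^ p ≤ Real.exp (p * (b * z)) := by
    have : 1 + b * z ≤ Real.exp (b * z) := by
      have := Real.add_one_le_exp (b * z)
      linarith
    calc (1 + b * z) ^ p ≤ (Real.exp (b * z)) ^ p := Real.rpow_le_rpow h0 this hp0.le
      _ = Real.exp (p * (b * z)) := by
          rw [← Real.exp_mul, mul_comm]
  have hbz : |b * z| ≤ c := by
    rw [abs_mul]
    calc |b| * |z| ≤ 1 * c := mul_le_mul hb hz (abs_nonneg _) (by norm_num)
      _ = c := one_mul c
  have hpbz : |p * (b * z)| ≤ p * c := by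
    rw [abs_mul, abs_of_pos hp0]
    exact mul_le_mul_of_nonneg_left hbz hp0.le
  have hpc : p * c ≤ 1 := by
    calc p * c ≤ p * (1 / p) := mul_le_mul_of_nonneg_left hc hp0.le
      _ = 1 := by field_simp
  have h4 : Real.exp (p * (b * z)) ≤ 1 + p * (b * z) + (p * (b * z)) ^ 2 := by
    have := Real.abs_exp_sub_one_sub_id_le (hpbz.trans hpc)
    have := (abs_le.mp this).2
    linarith
  have h5 : (p * (b * z)) ^ 2 ≤ p ^ 2 * c ^ 2 := by
    rw [← mul_pow, ← sq_abs (p * (b * z))]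
    exact pow_le_pow_left₀ (abs_nonneg _) hpbz 2
  linarith

/-- Norm attainment from the integral representation. -/
theorem attain [CompleteSpace E] {p : ℝ} {ev : (E →L[ℝ] ℝ) → ℝ}
    (hp : 1 ≤ p) (hhom : ∀ (c : ℝ) y, 0 < c → ev (c • y) = c * ev y)
    (hN : ∀ (l : List (E →L[ℝ] ℝ)) (K : ℝ),
      (∀ x : Bl E, (l.map fun y => |y x.1| ^ p).sum ≤ K) →
        (l.map fun y => |ev y| ^ p).sum ≤ K)
    (xs : E →L[ℝ] ℝ) (hxs : ‖xs‖ ≤ 1) (hev : ev xs = 1)
    (hD : ∀ η : ℝ, 0 < η → ∃ F : Finset E, ∀ w : E →L[ℝ] ℝ,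
      (∀ e ∈ F, w e = 0) → ‖w‖ ≤ 1 → |ev (xs + w) - 1| ≤ η) :
    ∃ e : E, ‖e‖ ≤ 1 ∧ xs e = 1 := by
  obtain ⟨Λ, hΛ, hΛev⟩ := exists_lam hp hhom hN
  have hp0 : 0 < p := by linarith
  have hmono : ∀ h k : Bl E →ᵇ ℝ, (∀ x, h x ≤ k x) → Λ h ≤ Λ k := by
    intro h k hk
    have := hΛ (h - k) 0 (by
      intro x
      simp only [BoundedContinuousFunction.coe_sub, Pi.sub_apply]
      linarith [hk x])
    rw [map_sub] at this
    linarith
  have hxb : ∀ x : Bl E, |xs x.1| ≤ 1 := fun x => (abs_le_nrm xs x).trans hxs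
  have hprb : ∀ (z : E →L[ℝ] ℝ) (x : Bl E), |pr xs z x| ≤ ‖z‖ := by
    intro z x
    rw [pr_apply, abs_mul]
    calc |xs x.1| * |z x.1| ≤ 1 * ‖z‖ :=
          mul_le_mul (hxb x) (abs_le_nrm z x) (abs_nonneg _) (by norm_num)
      _ = ‖z‖ := one_mul _
  -- the barycentre
  let x1l : (E →L[ℝ] ℝ) →ₗ[ℝ] ℝ :=
    { toFun := fun z => Λ (pr xs z)
      map_add' := by
        intro y z
        rw [← map_add]
        congr 1
        ext x
        simp [mul_add]
      map_smul' := by
        intro c z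
        have : pr xs (c • z) = c • pr xs z := by
          ext x
          simp only [pr_apply, BoundedContinuousFunction.coe_smul, _root_.smul_apply, smul_eq_mul]
          ring
        rw [this, map_smul]
        rfl }
  have hx1b : ∀ z, ‖x1l z‖ ≤ 1 * ‖z‖ := by
    intro z
    rw [one_mul, Real.norm_eq_abs, abs_le]
    constructor
    · have := hΛ (-(pr xs z)) ‖z‖ (by
        intro x
        have := (abs_le.mp (hprb z x)).1
        simp only [BoundedContinuousFunction.coe_neg, Pi.neg_apply]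
        linarith)
      rw [map_neg] at this
      change -‖z‖ ≤ Λ (pr xs z)
      linarith
    · exact hΛ _ _ fun x => (abs_le.mp (hprb z x)).2
  let x1 : (E →L[ℝ] ℝ) →L[ℝ] ℝ := x1l.mkContinuous 1 hx1b
  have hx1n : ‖x1‖ ≤ 1 := x1l.mkContinuous_norm_le zero_le_one hx1b
  have hx1a : ∀ z, x1 z = Λ (pr xs z) := fun z => rfl
  have hone : Λ (pw p hp xs) ≥ 1 := by
    have := hΛev xs
    rw [hev, abs_one, Real.one_rpow] at this
    exact this
  -- value at `xs`
  have hval : 1 ≤ x1 xs := by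
    have h1 := hΛ ((2 : ℝ) • pw p hp xs - pr xs xs) 1 (by
      intro x
      simp only [BoundedContinuousFunction.coe_sub, BoundedContinuousFunction.coe_smul,
        Pi.sub_apply, pw_apply, pr_apply, smul_eq_mul]
      have h2 : |xs x.1| ^ p ≤ |xs x.1| := by
        calc |xs x.1| ^ p ≤ |xs x.1| ^ (1 : ℝ) :=
              Real.rpow_le_rpow_of_exponent_ge_of_imp (abs_nonneg _) (hxb x) hp (by
                intro _ h2; exfalso; linarith)
          _ = |xs x.1| := Real.rpow_one _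
      have h3 : xs x.1 * xs x.1 = |xs x.1| * |xs x.1| := (abs_mul_abs_self _).symm
      rw [h3]
      nlinarith [sq_nonneg (|xs x.1| - 1)])
    rw [map_sub, map_smul, smul_eq_mul] at h1
    rw [hx1a]
    linarith
  -- upper estimate
  have hup : ∀ w : E →L[ℝ] ℝ, ‖w‖ ≤ 1 / p →
      |ev (xs + w)| ^ p ≤ 1 + p * x1 w + p ^ 2 * ‖w‖ ^ 2 := by
    intro w hw
    have h1 := hΛev (xs + w)
    have h2 := hΛ (pw p hp (xs + w) - p • pr xs w) (1 + p ^ 2 * ‖w‖ ^ 2) (by
      intro x
      simp only [BoundedContinuousFunction.coe_sub, BoundedContinuousFunction.coe_smul,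
        Pi.sub_apply, pw_apply, pr_apply, smul_eq_mul, _root_.add_apply]
      have := ptwise hp (hxb x) (abs_le_nrm w x) hw
      linarith)
    rw [map_sub, map_smul, smul_eq_mul, ← hx1a] at h2
    linarith
  -- small on functionals vanishing on a finite set
  have hsmall : ∀ ρ : ℝ, 0 < ρ → ρ ≤ 1 / p → ∃ F : Finset E, ∀ w : E →L[ℝ] ℝ,
      (∀ e ∈ F, w e = 0) → ‖x1 w‖ ≤ ((1 + p) * ρ) * ‖w‖ := by
    intro ρ hρ hρp
    have hρ1 : ρ ≤ 1 := hρp.trans (by rw [div_le_one hp0]; exact hp)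
    obtain ⟨F, hF⟩ := hD (ρ ^ 2) (by positivity)
    have hlow : ∀ w : E →L[ℝ] ℝ, (∀ e ∈ F, w e = 0) → -(((1 + p) * ρ) * ‖w‖) ≤ x1 w := by
      intro w hw
      rcases eq_or_ne w 0 with rfl | hw0
      · simp
      have hwn : 0 < ‖w‖ := norm_pos_iff.mpr hw0
      set v : E →L[ℝ] ℝ := (ρ / ‖w‖) • w with hv
      have hvn : ‖v‖ = ρ := by
        rw [hv, norm_smul, Real.norm_eq_abs, abs_of_pos (div_pos hρ hwn)]
        field_simp
      have hvF : ∀ e ∈ F, v e = 0 := by
        intro e he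
        rw [hv, _root_.smul_apply, hw e he, smul_zero]
      have h1 := hF v hvF (by rw [hvn]; exact hρ1)
      have h2 := hup v (by rw [hvn]; exact hρp)
      have h3 : 1 - ρ ^ 2 ≤ |ev (xs + v)| := by
        have := (abs_le.mp h1).1
        have := le_abs_self (ev (xs + v))
        linarith
      have hρ2 : ρ ^ 2 ≤ 1 := by nlinarith
      have h4 : 1 + p * (-(ρ ^ 2)) ≤ (1 + -(ρ ^ 2)) ^ p :=
        one_add_mul_self_le_rpow_one_add (by linarith) hp
      have h5 : (1 + -(ρ ^ 2)) ^ p ≤ |ev (xs + v)| ^ p :=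
        Real.rpow_le_rpow (by linarith) (by linarith) hp0.le
      rw [hvn] at h2
      have h6 : x1 v = (ρ / ‖w‖) * x1 w := by
        rw [hv, map_smul, smul_eq_mul]
      have h7 : -(ρ ^ 2) - p * ρ ^ 2 ≤ x1 v := by
        have : p * (-(ρ ^ 2) - p * ρ ^ 2) ≤ p * x1 v := by nlinarith
        exact le_of_mul_le_mul_left this hp0
      rw [h6] at h7
      have h8 : (‖w‖ / ρ) * (-(ρ ^ 2) - p * ρ ^ 2) ≤ (‖w‖ / ρ) * ((ρ / ‖w‖) * x1 w) :=
        mul_le_mul_of_nonneg_left h7 (by positivity)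
      have h9 : (‖w‖ / ρ) * ((ρ / ‖w‖) * x1 w) = x1 w := by field_simp
      have h10 : (‖w‖ / ρ) * (-(ρ ^ 2) - p * ρ ^ 2) = -(((1 + p) * ρ) * ‖w‖) := by
        field_simp
        ring
      rw [h9, h10] at h8
      exact h8
    refine ⟨F, fun w hw => ?_⟩
    rw [Real.norm_eq_abs, abs_le]
    refine ⟨hlow w hw, ?_⟩
    have := hlow (-w) (by
      intro e he
      rw [_root_.neg_apply, hw e he, neg_zero])
    rw [norm_neg, map_neg] at this
    linarith
  -- the barycentre lies in `E`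
  have hclose : ∀ ρ : ℝ, 0 < ρ → ρ ≤ 1 / p →
      ∃ e : E, ‖x1 - NormedSpace.inclusionInDoubleDual ℝ E e‖ ≤ (1 + p) * ρ := by
    intro ρ hρ hρp
    obtain ⟨F, hF⟩ := hsmall ρ hρ hρp
    let W : Submodule ℝ (E →L[ℝ] ℝ) :=
      { carrier := {w | ∀ e ∈ F, w e = 0}
        add_mem' := by
          intro a b ha hb e he
          rw [_root_.add_apply, ha e he, hb e he, add_zero]
        zero_mem' := by intro e he; rfl
        smul_mem' := by
          intro c a ha e he
          rw [_root_.smul_apply, ha e he, smul_zero] }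
    obtain ⟨g, hg1, hg2⟩ := exists_extension_norm_eq W (x1.comp W.subtypeL)
    have hgn : ‖g‖ ≤ (1 + p) * ρ := by
      rw [hg2]
      apply ContinuousLinearMap.opNorm_le_bound _ (by positivity)
      intro w
      exact hF w.1 w.2
    let JJ : E →ₗ[ℝ] ((E →L[ℝ] ℝ) →ₗ[ℝ] ℝ) :=
      { toFun := fun e =>
          { toFun := fun y => y e
            map_add' := fun _ _ => rfl
            map_smul' := fun _ _ => rfl }
        map_add' := by
          intro a b
          ext y
          simp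
        map_smul' := by
          intro c a
          ext y
          simp }
    have hmem : ((x1 - g : (E →L[ℝ] ℝ) →L[ℝ] ℝ) : (E →L[ℝ] ℝ) →ₗ[ℝ] ℝ) ∈
        Submodule.span ℝ (Set.range fun e : F => JJ e.1) := by
      apply mem_span_of_iInf_ker_le_ker
      intro w hw
      rw [Submodule.mem_iInf] at hw
      have hwW : w ∈ W := by
        intro e he
        exact hw ⟨e, he⟩
      rw [LinearMap.mem_ker]
      change x1 w - g w = 0
      have := hg1 ⟨w, hwW⟩
      change g w = x1 w at this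
      rw [this, sub_self]
    have hle : Submodule.span ℝ (Set.range fun e : F => JJ e.1) ≤ LinearMap.range JJ := by
      rw [Submodule.span_le]
      rintro _ ⟨e, rfl⟩
      exact ⟨e.1, rfl⟩
    obtain ⟨e, he⟩ := hle hmem
    refine ⟨e, ?_⟩
    have : x1 - NormedSpace.inclusionInDoubleDual ℝ E e = g := by
      ext y
      have := congrArg (fun T => T y) he
      change y e = x1 y - g y at this
      rw [_root_.sub_apply, NormedSpace.dual_def, this]
      ring
    rw [this]
    exact hgn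
  have hJiso : Isometry (NormedSpace.inclusionInDoubleDual ℝ E) :=
    (NormedSpace.inclusionInDoubleDualLi ℝ (E := E)).isometry
  have hmemr : x1 ∈ Set.range (NormedSpace.inclusionInDoubleDual ℝ E) := by
    have hcl : IsClosed (Set.range (NormedSpace.inclusionInDoubleDual ℝ E)) :=
      hJiso.isClosedEmbedding.isClosed_range
    rw [← hcl.closure_eq]
    refine (Metric.mem_closure_range_iff (e := ⇑(NormedSpace.inclusionInDoubleDual ℝ E))
      (a := x1)).mpr ?_
    intro ε hε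
    have hρ0 : 0 < min (1 / p) (ε / (2 * (1 + p))) := by positivity
    obtain ⟨e, he⟩ := hclose _ hρ0 (min_le_left _ _)
    refine ⟨e, ?_⟩
    refine lt_of_eq_of_lt (dist_eq_norm x1 (NormedSpace.inclusionInDoubleDual ℝ E e)) ?_
    calc ‖x1 - NormedSpace.inclusionInDoubleDual ℝ E e‖
        ≤ (1 + p) * min (1 / p) (ε / (2 * (1 + p))) := he
      _ ≤ (1 + p) * (ε / (2 * (1 + p))) :=
          mul_le_mul_of_nonneg_left (min_le_right _ _) (by positivity)
      _ = ε / 2 := by field_simp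
      _ < ε := by linarith
  obtain ⟨e, he⟩ := hmemr
  have hen : ‖e‖ ≤ 1 := by
    have := (NormedSpace.inclusionInDoubleDualLi ℝ (E := E)).norm_map e
    rw [← this]
    change ‖NormedSpace.inclusionInDoubleDual ℝ E e‖ ≤ 1
    rw [he]
    exact hx1n
  refine ⟨e, hen, ?_⟩
  have h1 : xs e = x1 xs := by rw [← he, NormedSpace.dual_def]
  have h2 : xs e ≤ 1 := (le_abs_self _).trans (hxb ⟨e, hen⟩)
  linarith

end X190.FB
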