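import Mathlib

/-!
`p`-convexity of a Banach lattice through the element `(∑ |x i| ^ p) ^ (1 / p)`, defined as a
least upper bound, and through finite suprema.
-/

universe u v

namespace X190.FB

/-- The unit ball of the dual of `ℓ_p^n`. -/
def dualBall (p : ℝ) (n : ℕ) : Set (Fin n → ℝ) :=
  {a | ∀ t : Fin n → ℝ, ∑ i, a i * t i ≤ (∑ i, |t i| ^ p) ^ (1 / p)}

/-- `p`-convexity with constant one, through finite suprema. -/
def PConvexOne (p : ℝ) (X : Type v) [NormedAddCommGroup X] [NormedSpace ℝ X] [Lattice X] :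
    Prop :=
  ∀ (n : ℕ) (x : Fin n → X) (N : Finset (Fin n → ℝ)) (hN : N.Nonempty),
    (∀ a ∈ N, a ∈ dualBall p n) →
      ‖N.sup' hN fun a => ∑ i, a i • x i‖ ≤ (∑ i, ‖x i‖ ^ p) ^ (1 / p)

/-- `p`-convexity with constant one: the element `s = (∑ |x i| ^ p) ^ (1 / p)`, i.e. the least
upper bound of all `∑ a i • x i` with `a` in the dual unit ball of `ℓ_p^n`, exists and satisfies
`‖s‖ ≤ (∑ ‖x i‖ ^ p) ^ (1 / p)`. -/
def PConvex (p : ℝ) (X : Type v) [NormedAddCommGroup X] [NormedSpace ℝ X] [Lattice X] :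
    Prop :=
  ∀ (n : ℕ) (x : Fin n → X), ∃ s : X,
    IsLUB {v | ∃ a ∈ dualBall p n, v = ∑ i, a i • x i} s ∧
      ‖s‖ ≤ (∑ i, ‖x i‖ ^ p) ^ (1 / p)

theorem dualBall_neg {p : ℝ} {n : ℕ} {a : Fin n → ℝ} (ha : a ∈ dualBall p n) :
    -a ∈ dualBall p n := by
  intro t
  have := ha (-t)
  simpa using this

theorem dualBall_zero {p : ℝ} {n : ℕ} : (0 : Fin n → ℝ) ∈ dualBall p n := by
  intro t
  simp only [Pi.zero_apply, zero_mul, Finset.sum_const_zero]
  exact Real.rpow_nonneg (Finset.sum_nonneg fun i _ => Real.rpow_nonneg (abs_nonneg _) _) _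

theorem dualBall_le_one {p : ℝ} (hp : 1 ≤ p) {n : ℕ} {a : Fin n → ℝ} (ha : a ∈ dualBall p n)
    (i : Fin n) : |a i| ≤ 1 := by
  have key : ∀ b ∈ dualBall p n, b i ≤ 1 := by
    intro b hb
    have h := hb (Pi.single i 1)
    have h1 : ∑ j, b j * (Pi.single i 1 : Fin n → ℝ) j = b i := by
      rw [Finset.sum_eq_single i]
      · simp
      · intro j _ hj
        simp [Pi.single_eq_of_ne hj]
      · intro h; exact absurd (Finset.mem_univ i) h
    have h2 : ∑ j, |(Pi.single i 1 : Fin n → ℝ) j| ^ p = 1 := by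
      rw [Finset.sum_eq_single i]
      · simp
      · intro j _ hj
        rw [Pi.single_eq_of_ne hj, abs_zero, Real.zero_rpow (by linarith)]
      · intro h; exact absurd (Finset.mem_univ i) h
    rw [h1, h2, Real.one_rpow] at h
    exact h
  rw [abs_le]
  refine ⟨?_, key a ha⟩
  have := key (-a) (dualBall_neg ha)
  simp only [Pi.neg_apply] at this
  linarith

section

variable {X : Type v} [NormedAddCommGroup X] [NormedSpace ℝ X] [Lattice X]
  [IsOrderedAddMonoid X] [HasSolidNorm X] [PosSMulMono ℝ X]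

theorem smul_le_smul_abs {c ε : ℝ} (hc : |c| ≤ ε) (x : X) : c • x ≤ ε • |x| := by
  have h0 : 0 ≤ |x| := abs_nonneg x
  have h1 : |c| • |x| ≤ ε • |x| := by
    have h2 : 0 ≤ (ε - |c|) • |x| := smul_nonneg (sub_nonneg.mpr hc) h0
    rw [sub_smul, sub_nonneg] at h2
    exact h2
  refine le_trans ?_ h1
  rcases le_total 0 c with hc0 | hc0
  · rw [abs_of_nonneg hc0]
    exact smul_le_smul_of_nonneg_left (le_abs_self x) hc0
  · rw [abs_of_nonpos hc0]
    have h3 := smul_le_smul_of_nonneg_left (neg_le_abs x) (neg_nonneg.mpr hc0)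
    rwa [smul_neg, neg_smul, neg_neg] at h3

theorem abs_sup'_le {ι : Type*} {N : Finset ι} (hN : N.Nonempty) {f : ι → X} {s : X}
    (h1 : ∀ a ∈ N, f a ≤ s) (h2 : ∀ a ∈ N, -f a ≤ s) : ‖N.sup' hN f‖ ≤ ‖s‖ := by
  apply HasSolidNorm.solid
  refine le_trans ?_ (le_abs_self s)
  rw [abs_le']
  refine ⟨Finset.sup'_le _ _ h1, ?_⟩
  obtain ⟨a, ha⟩ := hN
  exact (neg_le_neg (Finset.le_sup' f ha)).trans (h2 a ha)

theorem exists_psum [CompleteSpace X] {p : ℝ} (hp : 1 ≤ p) {n : ℕ} (x : Fin n → X) {C : ℝ}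
    (hC : ∀ (N : Finset (Fin n → ℝ)) (hN : N.Nonempty),
      (∀ a ∈ N, a ∈ dualBall p n) → ‖N.sup' hN fun a => ∑ i, a i • x i‖ ≤ C) :
    ∃ s : X, IsLUB {v | ∃ a ∈ dualBall p n, v = ∑ i, a i • x i} s ∧ ‖s‖ ≤ C := by
  classical
  have htb : TotallyBounded (dualBall p n) := by
    refine (isCompact_closedBall (0 : Fin n → ℝ) 1).totallyBounded.subset ?_
    intro a ha
    rw [mem_closedBall_zero_iff, pi_norm_le_iff_of_nonneg zero_le_one]
    exact fun i => dualBall_le_one hp ha i
  have hε : ∀ k : ℕ, (0 : ℝ) < 1 / ((k : ℝ) + 1) := fun k => Nat.one_div_pos_of_nat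
  choose t ht1 ht2 ht3 using fun k : ℕ => Metric.finite_approx_of_totallyBounded htb _ (hε k)
  have hne : ∀ k, (ht2 k).toFinset.Nonempty := by
    intro k
    have := ht3 k (dualBall_zero (p := p) (n := n))
    simp only [Set.mem_iUnion] at this
    obtain ⟨y, hy, -⟩ := this
    exact ⟨y, (ht2 k).mem_toFinset.mpr hy⟩
  set w : X := ∑ i, |x i| with hw
  have hw0 : 0 ≤ w := Finset.sum_nonneg fun i _ => abs_nonneg _
  set U : ℕ → X := fun k => (ht2 k).toFinset.sup' (hne k) fun a => ∑ i, a i • x i with hU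
  have hUle : ∀ k, ∀ a ∈ dualBall p n, ∑ i, a i • x i ≤ U k + (1 / ((k : ℝ) + 1)) • w := by
    intro k a ha
    have := ht3 k ha
    simp only [Set.mem_iUnion] at this
    obtain ⟨b, hb, hab⟩ := this
    have h1 : ∑ i, a i • x i = ∑ i, b i • x i + ∑ i, (a i - b i) • x i := by
      rw [← Finset.sum_add_distrib]
      apply Finset.sum_congr rfl
      intro i _
      rw [sub_smul]
      abel
    rw [h1, hw, Finset.smul_sum]
    apply add_le_add
    · exact Finset.le_sup' (fun a : Fin n → ℝ => ∑ i, a i • x i) ((ht2 k).mem_toFinset.mpr hb)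
    · apply Finset.sum_le_sum
      intro i _
      apply smul_le_smul_abs
      have h2 : dist (a i) (b i) ≤ dist a b := dist_le_pi_dist a b i
      rw [Real.dist_eq] at h2
      exact h2.trans (Metric.mem_ball.mp hab).le
  have hUU : ∀ k m, U m ≤ U k + (1 / ((k : ℝ) + 1)) • w := by
    intro k m
    apply Finset.sup'_le
    intro a ha
    exact hUle k a (ht1 m ((ht2 m).mem_toFinset.mp ha))
  have hdist : ∀ k m : ℕ, k ≤ m → ‖U k - U m‖ ≤ (1 / ((k : ℝ) + 1)) * ‖w‖ := by
    intro k m hkm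
    have h1 : |U k - U m| ≤ |(1 / ((k : ℝ) + 1)) • w| := by
      refine le_trans ?_ (le_abs_self _)
      rw [abs_le']
      constructor
      · rw [sub_le_iff_le_add']
        refine (hUU m k).trans (add_le_add le_rfl ?_)
        have h2 : 0 ≤ (1 / ((k : ℝ) + 1) - 1 / ((m : ℝ) + 1)) • w := by
          apply smul_nonneg _ hw0
          rw [sub_nonneg]
          apply one_div_le_one_div_of_le (by positivity)
          have : (k : ℝ) ≤ m := by exact_mod_cast hkm
          linarith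
        rw [sub_smul, sub_nonneg] at h2
        exact h2
      · rw [neg_sub, sub_le_iff_le_add']
        exact hUU k m
    have := HasSolidNorm.solid h1
    rwa [norm_smul, Real.norm_eq_abs, abs_of_pos (hε k)] at this
  have hlim : Filter.Tendsto (fun k : ℕ => (1 / ((k : ℝ) + 1))) Filter.atTop (nhds 0) :=
    tendsto_one_div_add_atTop_nhds_zero_nat
  have hcau : CauchySeq U := by
    apply cauchySeq_of_le_tendsto_0' (fun k : ℕ => (1 / ((k : ℝ) + 1)) * ‖w‖)
    · intro k m hkm
      rw [dist_eq_norm]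
      exact hdist k m hkm
    · simpa using hlim.mul_const ‖w‖
  obtain ⟨s, hs⟩ := cauchySeq_tendsto_of_complete hcau
  refine ⟨s, ⟨?_, ?_⟩, ?_⟩
  · rintro v ⟨a, ha, rfl⟩
    have h1 : Filter.Tendsto (fun k : ℕ => U k + (1 / ((k : ℝ) + 1)) • w) Filter.atTop
        (nhds s) := by
      simpa using hs.add (hlim.smul_const w)
    exact ge_of_tendsto' h1 fun k => hUle k a ha
  · intro v hv
    apply le_of_tendsto' hs
    intro k
    apply Finset.sup'_le
    intro a ha
    exact hv ⟨a, ht1 k ((ht2 k).mem_toFinset.mp ha), rfl⟩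
  · apply le_of_tendsto' hs.norm
    intro k
    exact hC _ _ fun a ha => ht1 k ((ht2 k).mem_toFinset.mp ha)

theorem pconvex_iff [CompleteSpace X] {p : ℝ} (hp : 1 ≤ p) : PConvex p X ↔ PConvexOne p X := by
  constructor
  · intro h n x N hN ha
    obtain ⟨s, hs1, hs2⟩ := h n x
    refine (abs_sup'_le hN ?_ ?_).trans hs2
    · intro a haN
      exact hs1.1 ⟨a, ha a haN, rfl⟩
    · intro a haN
      refine hs1.1 ⟨-a, dualBall_neg (ha a haN), ?_⟩
      simp
  · intro h n x
    exact exists_psum hp x (h n x)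

/-- Every Banach lattice is `1`-convex with constant one. -/
theorem pconvex_one [CompleteSpace X] : PConvex 1 X := by
  rw [pconvex_iff le_rfl]
  intro n x N hN ha
  have h1 : ‖N.sup' hN fun a => ∑ i, a i • x i‖ ≤ ‖∑ i, |x i|‖ := by
    have key : ∀ a ∈ dualBall 1 n, ∑ i, a i • x i ≤ ∑ i, |x i| := by
      intro a ha
      apply Finset.sum_le_sum
      intro i _
      have := smul_le_smul_abs (dualBall_le_one le_rfl ha i) (x i)
      rwa [one_smul] at this
    apply abs_sup'_le hN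
    · intro a haN
      exact key a (ha a haN)
    · intro a haN
      have := key (-a) (dualBall_neg (ha a haN))
      simpa using this
  refine h1.trans ((norm_sum_le _ _).trans ?_)
  simp [norm_abs_eq_norm]

end

end X190.FB
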