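import Mathlib
import Pool.Agent.X190.FB.Conv

/-!
Definitions: lattice homomorphisms, free `p`-convex Banach lattices; the finite-dimensional
`ℓ_p` as a Banach lattice.
-/

universe u v

namespace X190.FB

/-- A bounded linear map between normed lattices is a lattice homomorphism if it preserves
finite suprema and infima. -/
def IsLatHom {L : Type u} {X : Type v} [NormedAddCommGroup L] [NormedSpace ℝ L] [Lattice L]
    [NormedAddCommGroup X] [NormedSpace ℝ X] [Lattice X] (S : L →L[ℝ] X) : Prop :=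
  ∀ a b : L, S (a ⊔ b) = S a ⊔ S b ∧ S (a ⊓ b) = S a ⊓ S b

/-- `δ : E → L` has the defining property of the free `p`-convex Banach lattice over `E`. -/
structure IsFree (p : ℝ) {E L : Type u} [NormedAddCommGroup E] [NormedSpace ℝ E]
    [NormedAddCommGroup L] [NormedSpace ℝ L] [Lattice L] (δ : E →ₗᵢ[ℝ] L) : Prop where
  convex : PConvex p L
  lift : ∀ (X : Type u) [NormedAddCommGroup X] [NormedSpace ℝ X] [CompleteSpace X] [Lattice X]
    [IsOrderedAddMonoid X] [HasSolidNorm X] [PosSMulMono ℝ X], PConvex p X →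
    ∀ T : E →L[ℝ] X, ∃! S : L →L[ℝ] X, IsLatHom S ∧ (∀ e, S (δ e) = T e) ∧ ‖S‖ = ‖T‖

/-- `ℝ ^ ι` with the `p`-norm. -/
def Y (_ : ℝ) (ι : Type u) : Type u := ι → ℝ

section Y

variable (p : ℝ) (ι : Type u)

instance : AddCommGroup (Y p ι) := inferInstanceAs (AddCommGroup (ι → ℝ))
instance : Module ℝ (Y p ι) := inferInstanceAs (Module ℝ (ι → ℝ))
instance : Lattice (Y p ι) := inferInstanceAs (Lattice (ι → ℝ))
instance : IsOrderedAddMonoid (Y p ι) := inferInstanceAs (IsOrderedAddMonoid (ι → ℝ))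
instance [Fintype ι] : Module.Finite ℝ (Y p ι) := inferInstanceAs (Module.Finite ℝ (ι → ℝ))

instance : PosSMulMono ℝ (Y p ι) where
  smul_le_smul_of_nonneg_left := by
    intro a ha b c hbc i
    exact mul_le_mul_of_nonneg_left (hbc i) ha

variable [hp : Fact (1 ≤ p)] [Fintype ι]

instance fE : Fact (1 ≤ ENNReal.ofReal p) :=
  ⟨by rw [← ENNReal.ofReal_one]; exact ENNReal.ofReal_le_ofReal hp.out⟩

/-- The embedding in the `PiLp` space. -/
def toP : Y p ι →ₗ[ℝ] PiLp (ENNReal.ofReal p) (fun _ : ι => ℝ) :=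
  (WithLp.linearEquiv (ENNReal.ofReal p) ℝ (ι → ℝ)).symm.toLinearMap

theorem toP_inj : Function.Injective (toP p ι) :=
  (WithLp.linearEquiv (ENNReal.ofReal p) ℝ (ι → ℝ)).symm.injective

noncomputable instance : NormedAddCommGroup (Y p ι) :=
  NormedAddCommGroup.induced (Y p ι) (PiLp (ENNReal.ofReal p) (fun _ : ι => ℝ))
    (toP p ι).toAddMonoidHom (toP_inj p ι)

theorem Y_norm (x : Y p ι) : ‖x‖ = (∑ i, |x i| ^ p) ^ (1 / p) := by
  have hp0 : 0 < p := by linarith [hp.out]
  change ‖toP p ι x‖ = _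
  have h1 : (ENNReal.ofReal p).toReal = p := ENNReal.toReal_ofReal hp0.le
  rw [PiLp.norm_eq_sum (by rw [h1]; exact hp0), h1]
  rfl

noncomputable instance : NormedSpace ℝ (Y p ι) where
  norm_smul_le := by
    intro a x
    change ‖toP p ι (a • x)‖ ≤ ‖a‖ * ‖toP p ι x‖
    rw [map_smul]
    exact norm_smul_le _ _

instance : CompleteSpace (Y p ι) := FiniteDimensional.complete ℝ (Y p ι)

theorem Y_norm_pow (x : Y p ι) : ‖x‖ ^ p = ∑ i, |x i| ^ p := by
  have hp0 : 0 < p := by linarith [hp.out]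
  rw [Y_norm, ← Real.rpow_mul (Finset.sum_nonneg fun i _ => Real.rpow_nonneg (abs_nonneg _) _),
    one_div, inv_mul_cancel₀ hp0.ne', Real.rpow_one]

theorem Y_le_of {x : Y p ι} {c : ℝ} (hc : 0 ≤ c) (h : ∑ i, |x i| ^ p ≤ c ^ p) : ‖x‖ ≤ c := by
  have hp0 : 0 < p := by linarith [hp.out]
  rw [← Y_norm_pow] at h
  exact (Real.rpow_le_rpow_iff (norm_nonneg _) hc hp0).mp h

instance : HasSolidNorm (Y p ι) where
  solid := by
    intro x y hxy
    have hp0 : 0 < p := by linarith [hp.out]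
    apply Y_le_of p ι (norm_nonneg _)
    rw [Y_norm_pow]
    apply Finset.sum_le_sum
    intro i _
    exact Real.rpow_le_rpow (abs_nonneg _) (hxy i) hp0.le

theorem Y_sup_apply (a b : Y p ι) (i : ι) : (a ⊔ b) i = a i ⊔ b i := rfl
theorem Y_inf_apply (a b : Y p ι) (i : ι) : (a ⊓ b) i = a i ⊓ b i := rfl

/-- Coordinate functional. -/
noncomputable def coord (i : ι) : Y p ι →L[ℝ] ℝ :=
  LinearMap.mkContinuous
    { toFun := fun x => x i
      map_add' := fun _ _ => rfl
      map_smul' := fun _ _ => rfl } 1 (by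
    intro x
    have hp0 : 0 < p := by linarith [hp.out]
    rw [one_mul]
    change |x i| ≤ ‖x‖
    rw [← Real.rpow_le_rpow_iff (abs_nonneg _) (norm_nonneg _) hp0, Y_norm_pow]
    exact Finset.single_le_sum (f := fun i => |x i| ^ p)
      (fun j _ => Real.rpow_nonneg (abs_nonneg _) _) (Finset.mem_univ i))

@[simp] theorem coord_apply (i : ι) (x : Y p ι) : coord p ι i x = x i := rfl

theorem Y_convex : PConvexOne p (Y p ι) := by
  intro n x N hN ha
  have hp0 : 0 < p := by linarith [hp.out]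
  have hsn : 0 ≤ ∑ i, ‖x i‖ ^ p :=
    Finset.sum_nonneg fun i _ => Real.rpow_nonneg (norm_nonneg _) _
  apply Y_le_of p ι (Real.rpow_nonneg hsn _)
  rw [← Real.rpow_mul hsn, one_div, inv_mul_cancel₀ hp0.ne', Real.rpow_one]
  have h1 : ∀ j : ι, (N.sup' hN fun a => ∑ i, a i • x i) j
      = N.sup' hN fun a => ∑ i, a i * x i j := by
    intro j
    have := Finset.apply_sup'_eq_sup'_comp (f := fun a : Fin n → ℝ => ∑ i, a i • x i) hN
      (fun y : Y p ι => y j) (fun a b => rfl)
    refine this.trans ?_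
    congr 1
    funext a
    change coord p ι j (∑ i, a i • x i) = _
    rw [map_sum]
    rfl
  have h2 : ∀ j : ι, |(N.sup' hN fun a => ∑ i, a i • x i) j| ^ p ≤ ∑ i, |x i j| ^ p := by
    intro j
    have hs0 : 0 ≤ ∑ i, |x i j| ^ p :=
      Finset.sum_nonneg fun i _ => Real.rpow_nonneg (abs_nonneg _) _
    have h3 : |(N.sup' hN fun a => ∑ i, a i • x i) j| ≤ (∑ i, |x i j| ^ p) ^ (1 / p) := by
      rw [h1, abs_le]
      constructor
      · obtain ⟨a, haN⟩ := hN
        refine le_trans ?_ (Finset.le_sup' (fun a => ∑ i, a i * x i j) haN)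
        have := ha a haN (fun i => - x i j)
        simp only [mul_neg, Finset.sum_neg_distrib, abs_neg] at this
        linarith
      · apply Finset.sup'_le
        intro a haN
        exact ha a haN (fun i => x i j)
    calc |(N.sup' hN fun a => ∑ i, a i • x i) j| ^ p
        ≤ ((∑ i, |x i j| ^ p) ^ (1 / p)) ^ p := Real.rpow_le_rpow (abs_nonneg _) h3 hp0.le
      _ = ∑ i, |x i j| ^ p := by
        rw [← Real.rpow_mul hs0, one_div, inv_mul_cancel₀ hp0.ne', Real.rpow_one]
  calc ∑ j, |(N.sup' hN fun a => ∑ i, a i • x i) j| ^ p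
      ≤ ∑ j, ∑ i, |x i j| ^ p := Finset.sum_le_sum fun j _ => h2 j
    _ = ∑ i, ∑ j, |x i j| ^ p := Finset.sum_comm
    _ = ∑ i, ‖x i‖ ^ p := by
      apply Finset.sum_congr rfl
      intro i _
      rw [Y_norm_pow]

theorem Y_pconvex : PConvex p (Y p ι) := (pconvex_iff hp.out).mpr (Y_convex p ι)

end Y

end X190.FB
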