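import Mathlib
import Pool.Agent.X190.FB.Lp

/-!
Generation of the free `p`-convex Banach lattice, evaluations, and the `p`-summing bound.
-/

universe u

namespace X190.FB

variable {p : ℝ} {E L : Type u} [NormedAddCommGroup E] [NormedSpace ℝ E]
    [NormedAddCommGroup L] [NormedSpace ℝ L] [CompleteSpace L] [Lattice L]
    [IsOrderedAddMonoid L] [HasSolidNorm L] [PosSMulMono ℝ L] {δ : E →ₗᵢ[ℝ] L}

/-- Closed vector sublattices containing the image of `E` are everything. -/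
theorem gen [Nontrivial E] (hp : 1 ≤ p) (h : IsFree p δ) (G : Submodule ℝ L) (hcl : IsClosed (G : Set L))
    (hsup : ∀ a ∈ G, ∀ b ∈ G, a ⊔ b ∈ G) (hδ : ∀ e, δ e ∈ G) (f : L) : f ∈ G := by
  have hinf : ∀ a ∈ G, ∀ b ∈ G, a ⊓ b ∈ G := by
    intro a ha b hb
    have := neg_mem (hsup _ (neg_mem ha) _ (neg_mem hb))
    rwa [← neg_inf, neg_neg] at this
  letI : Lattice G := Subtype.lattice (fun {a b} ha hb => hsup a ha b hb)
    (fun {a b} ha hb => hinf a ha b hb)
  haveI : CompleteSpace G := hcl.completeSpace_coe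
  haveI : IsOrderedAddMonoid G :=
    { add_le_add_left := by
        intro a b hab c
        exact add_le_add_left (α := L) hab c.1 }
  haveI : HasSolidNorm G :=
    ⟨fun x y hxy => HasSolidNorm.solid (α := L) hxy⟩
  haveI : PosSMulMono ℝ G :=
    ⟨fun a ha b c hbc => smul_le_smul_of_nonneg_left (β := L) hbc ha⟩
  have hconv : PConvexOne p G := by
    intro n x N hN ha
    have h1 := (pconvex_iff hp).mp h.convex n (fun i => (x i).1) N hN ha
    have h2 : ((N.sup' hN fun a => ∑ i, a i • x i : G) : L)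
        = N.sup' hN fun a => ∑ i, a i • (x i).1 := by
      have := Finset.apply_sup'_eq_sup'_comp (f := fun a : Fin n → ℝ => ∑ i, a i • x i) hN
        (fun y : G => (y : L)) (fun a b => rfl)
      refine this.trans ?_
      congr 1
      funext a
      simp [Submodule.coe_sum]
    change ‖((N.sup' hN fun a => ∑ i, a i • x i : G) : L)‖ ≤ _
    rw [h2]
    exact h1
  let T : E →ₗᵢ[ℝ] G :=
    { toLinearMap := δ.toLinearMap.codRestrict G hδ
      norm_map' := fun e => δ.norm_map e }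
  obtain ⟨S, ⟨hS1, hS2, hS3⟩, -⟩ := h.lift G ((pconvex_iff hp).mpr hconv) T.toContinuousLinearMap
  obtain ⟨R, -, hR⟩ := h.lift L h.convex δ.toContinuousLinearMap
  haveI : Nontrivial L := δ.injective.nontrivial
  have e1 : G.subtypeL.comp S = R := by
    apply hR
    refine ⟨fun a b => ⟨congrArg Subtype.val (hS1 a b).1, congrArg Subtype.val (hS1 a b).2⟩,
      fun e => congrArg Subtype.val (hS2 e), ?_⟩
    rw [δ.norm_toContinuousLinearMap]
    have : ‖G.subtypeL.comp S‖ = ‖S‖ :=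
      G.subtypeₗᵢ.norm_toContinuousLinearMap_comp
    rw [this, hS3, T.norm_toContinuousLinearMap]
  have e2 : ContinuousLinearMap.id ℝ L = R := by
    apply hR
    refine ⟨fun a b => ⟨rfl, rfl⟩, fun e => rfl, ?_⟩
    rw [δ.norm_toContinuousLinearMap, ContinuousLinearMap.norm_id]
  have e3 : (G.subtypeL.comp S) f = (ContinuousLinearMap.id ℝ L) f := by rw [e1, e2]
  have e4 : ((S f : G) : L) = f := e3
  rw [← e4]
  exact (S f).2

/-- Real lattice homomorphisms are determined on `E`. -/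
theorem hom_unique [Nontrivial E] (hp : 1 ≤ p) (h : IsFree p δ) {φ ψ : L →L[ℝ] ℝ} (hφ : IsLatHom φ)
    (hψ : IsLatHom ψ) (he : ∀ e, φ (δ e) = ψ (δ e)) : φ = ψ := by
  ext f
  have := gen hp h (LinearMap.ker ((φ - ψ : L →L[ℝ] ℝ) : L →ₗ[ℝ] ℝ))
    (φ - ψ).isClosed_ker (by
      intro a ha b hb
      rw [LinearMap.mem_ker] at ha hb ⊢
      change φ (a ⊔ b) - ψ (a ⊔ b) = 0
      change φ a - ψ a = 0 at ha
      change φ b - ψ b = 0 at hb
      rw [(hφ a b).1, (hψ a b).1, sub_eq_zero.mp ha, sub_eq_zero.mp hb, sub_self]) (by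
      intro e
      rw [LinearMap.mem_ker]
      change φ (δ e) - ψ (δ e) = 0
      rw [he, sub_self]) f
  rw [LinearMap.mem_ker] at this
  change φ f - ψ f = 0 at this
  exact sub_eq_zero.mp this

/-- The basic consequence of the universal property: a finite family of functionals extends
to lattice homomorphisms satisfying the `p`-summing bound. -/
theorem exists_family (hp : 1 ≤ p) (h : IsFree p δ) {n : ℕ} (y : Fin n → (E →L[ℝ] ℝ)) (K : ℝ)
    (hK : ∀ x : E, ‖x‖ ≤ 1 → ∑ i, |y i x| ^ p ≤ K) :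
    ∃ φ : Fin n → (L →L[ℝ] ℝ), (∀ i, IsLatHom (φ i)) ∧ (∀ i e, φ i (δ e) = y i e) ∧
      ∀ f : L, ‖f‖ ≤ 1 → ∑ i, |φ i f| ^ p ≤ K := by
  haveI : Fact (1 ≤ p) := ⟨hp⟩
  have hp0 : 0 < p := by linarith
  have hK0 : 0 ≤ K := (Finset.sum_nonneg fun i _ => Real.rpow_nonneg (abs_nonneg _) _).trans
    (hK 0 (by simp))
  let Tl : E →ₗ[ℝ] Y p (ULift.{u} (Fin n)) :=
    { toFun := fun x => fun i => y i.down x
      map_add' := by
        intro a b
        funext i
        exact map_add (y i.down) a b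
      map_smul' := by
        intro c a
        funext i
        exact map_smul (y i.down) c a }
  have hTsum : ∀ x : E, ∑ i : ULift.{u} (Fin n), |(Tl x) i| ^ p = ∑ i : Fin n, |y i x| ^ p := by
    intro x
    exact Fintype.sum_equiv Equiv.ulift _ _ (fun i => rfl)
  have hTb : ∀ x : E, ‖Tl x‖ ≤ K ^ (1 / p) * ‖x‖ := by
    intro x
    rcases eq_or_ne x 0 with rfl | hx
    · simp
    have hxn : 0 < ‖x‖ := norm_pos_iff.mpr hx
    have h1 : ‖Tl ((‖x‖)⁻¹ • x)‖ ≤ K ^ (1 / p) := by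
      apply Y_le_of _ _ (Real.rpow_nonneg hK0 _)
      rw [hTsum, ← Real.rpow_mul hK0, one_div, inv_mul_cancel₀ hp0.ne', Real.rpow_one]
      apply hK
      rw [norm_smul, norm_inv, norm_norm, inv_mul_cancel₀ hxn.ne']
    rw [map_smul, norm_smul, norm_inv, norm_norm, inv_mul_le_iff₀ hxn] at h1
    linarith
  let T : E →L[ℝ] Y p (ULift.{u} (Fin n)) := Tl.mkContinuous _ hTb
  have hTn : ‖T‖ ≤ K ^ (1 / p) := Tl.mkContinuous_norm_le (Real.rpow_nonneg hK0 _) hTb
  obtain ⟨S, ⟨hS1, hS2, hS3⟩, -⟩ := h.lift (Y p (ULift.{u} (Fin n))) (Y_pconvex p _) T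
  refine ⟨fun i => (coord p _ (ULift.up i)).comp S, ?_, ?_, ?_⟩
  · intro i a b
    exact ⟨congrFun (hS1 a b).1 (ULift.up i), congrFun (hS1 a b).2 (ULift.up i)⟩
  · intro i e
    exact congrFun (hS2 e) (ULift.up i)
  · intro f hf
    have h1 : ∑ i : Fin n, |((coord p _ (ULift.up i)).comp S) f| ^ p = ‖S f‖ ^ p := by
      rw [Y_norm_pow]
      exact (Fintype.sum_equiv Equiv.ulift _ _ (fun i => rfl)).symm
    rw [h1]
    have h2 : ‖S f‖ ≤ K ^ (1 / p) := by
      calc ‖S f‖ ≤ ‖S‖ * ‖f‖ := S.le_opNorm f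
        _ ≤ K ^ (1 / p) * 1 := by
            apply mul_le_mul _ hf (norm_nonneg _) (Real.rpow_nonneg hK0 _)
            rw [hS3]
            exact hTn
        _ = K ^ (1 / p) := mul_one _
    calc ‖S f‖ ^ p ≤ (K ^ (1 / p)) ^ p := Real.rpow_le_rpow (norm_nonneg _) h2 hp0.le
      _ = K := by rw [← Real.rpow_mul hK0, one_div, inv_mul_cancel₀ hp0.ne', Real.rpow_one]

/-- Existence of the extension of one functional, with its norm. -/
theorem exists_ev (hp : 1 ≤ p) (h : IsFree p δ) (y : E →L[ℝ] ℝ) :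
    ∃ φ : L →L[ℝ] ℝ, IsLatHom φ ∧ (∀ e, φ (δ e) = y e) ∧ ‖φ‖ = ‖y‖ := by
  have hp0 : 0 < p := by linarith
  obtain ⟨φ, h1, h2, h3⟩ := exists_family hp h (n := 1) (fun _ => y) (‖y‖ ^ p) (by
    intro x hx
    rw [Fin.sum_univ_one]
    apply Real.rpow_le_rpow (abs_nonneg _) _ hp0.le
    calc |y x| ≤ ‖y‖ * ‖x‖ := y.le_opNorm x
      _ ≤ ‖y‖ * 1 := mul_le_mul_of_nonneg_left hx (norm_nonneg _)
      _ = ‖y‖ := mul_one _)
  refine ⟨φ 0, h1 0, h2 0, le_antisymm ?_ ?_⟩
  · have hb : ∀ f : L, ‖f‖ ≤ 1 → ‖φ 0 f‖ ≤ ‖y‖ := by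
      intro f hf
      have := h3 f hf
      rw [Fin.sum_univ_one, Real.rpow_le_rpow_iff (abs_nonneg _) (norm_nonneg _) hp0] at this
      exact this
    apply ContinuousLinearMap.opNorm_le_bound _ (norm_nonneg _)
    intro f
    rcases eq_or_ne f 0 with rfl | hf
    · simp
    have hfn : 0 < ‖f‖ := norm_pos_iff.mpr hf
    have h4 := hb ((‖f‖)⁻¹ • f) (by
      rw [norm_smul, norm_inv, norm_norm, inv_mul_cancel₀ hfn.ne'])
    rw [map_smul, norm_smul, norm_inv, norm_norm, inv_mul_le_iff₀ hfn] at h4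
    linarith
  · apply ContinuousLinearMap.opNorm_le_bound _ (norm_nonneg _)
    intro e
    rw [← h2 0 e]
    calc ‖φ 0 (δ e)‖ ≤ ‖φ 0‖ * ‖δ e‖ := (φ 0).le_opNorm _
      _ = ‖φ 0‖ * ‖e‖ := by rw [δ.norm_map]

end X190.FB
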