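import Mathlib
import Pool.Agent.X190.FB.Attain
import Pool.Agent.X190.FB.Gen

/-!
Norm attainment of functionals and of their lattice extensions.
-/

universe u

namespace X190.FB

variable {p : ℝ} {E L : Type u} [NormedAddCommGroup E] [NormedSpace ℝ E]
    [NormedAddCommGroup L] [NormedSpace ℝ L] [CompleteSpace L] [Lattice L]
    [IsOrderedAddMonoid L] [HasSolidNorm L] [PosSMulMono ℝ L] {δ : E →ₗᵢ[ℝ] L}

/-- Elements which depend on finitely many points only are dense. -/
theorem dense_fin [Nontrivial E] (hp : 1 ≤ p) (h : IsFree p δ) (ev : (E →L[ℝ] ℝ) → (L →L[ℝ] ℝ))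
    (hev1 : ∀ y, IsLatHom (ev y)) (hev2 : ∀ y e, ev y (δ e) = y e) (f : L) {η : ℝ} (hη : 0 < η) :
    ∃ (g : L) (F : Finset E), ‖f - g‖ < η ∧
      ∀ y y' : E →L[ℝ] ℝ, (∀ e ∈ F, y e = y' e) → ev y g = ev y' g := by
  classical
  let D : Submodule ℝ L :=
    { carrier := {g | ∃ F : Finset E,
        ∀ y y' : E →L[ℝ] ℝ, (∀ e ∈ F, y e = y' e) → ev y g = ev y' g}
      add_mem' := by
        rintro a b ⟨F, hF⟩ ⟨G, hG⟩
        refine ⟨F ∪ G, fun y y' hy => ?_⟩
        rw [map_add, map_add, hF y y' fun e he => hy e (Finset.mem_union_left _ he),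
          hG y y' fun e he => hy e (Finset.mem_union_right _ he)]
      zero_mem' := ⟨∅, fun y y' _ => by rw [map_zero, map_zero]⟩
      smul_mem' := by
        rintro c a ⟨F, hF⟩
        refine ⟨F, fun y y' hy => ?_⟩
        rw [map_smul, map_smul, hF y y' hy] }
  have hDsup : ∀ a ∈ D, ∀ b ∈ D, a ⊔ b ∈ D := by
    rintro a ⟨F, hF⟩ b ⟨G, hG⟩
    refine ⟨F ∪ G, fun y y' hy => ?_⟩
    rw [(hev1 y a b).1, (hev1 y' a b).1, hF y y' fun e he => hy e (Finset.mem_union_left _ he),
      hG y y' fun e he => hy e (Finset.mem_union_right _ he)]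
  have hf : f ∈ D.topologicalClosure := by
    apply gen hp h D.topologicalClosure D.isClosed_topologicalClosure
    · intro a ha b hb
      exact map_mem_closure₂ (continuous_fst.sup continuous_snd) ha hb
        (fun x hx y hy => hDsup x hx y hy)
    · intro e
      apply D.le_topologicalClosure
      refine ⟨{e}, fun y y' hy => ?_⟩
      rw [hev2, hev2]
      exact hy e (Finset.mem_singleton_self e)
  obtain ⟨g, ⟨F, hF⟩, hg⟩ := Metric.mem_closure_iff.mp hf η hη
  refine ⟨g, F, ?_, hF⟩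
  rwa [dist_eq_norm] at hg

/-- The main theorem, normalised form. -/
theorem main [CompleteSpace E] [Nontrivial E] (hp : 1 ≤ p) (h : IsFree p δ)
    (xs : E →L[ℝ] ℝ) (hxs : ‖xs‖ ≤ 1) (φ : L →L[ℝ] ℝ) (hφ : IsLatHom φ)
    (hφe : ∀ e, φ (δ e) = xs e) (f : L) (hf : ‖f‖ ≤ 1) (hφf : φ f = 1) :
    ∃ e : E, ‖e‖ ≤ 1 ∧ xs e = 1 := by
  choose ev hev1 hev2 hev3 using exists_ev (δ := δ) hp h
  have hφev : φ = ev xs := hom_unique hp h hφ (hev1 xs) fun e => by rw [hφe, hev2]
  apply attain (ev := fun y => ev y f) hp ?_ ?_ xs hxs (by rw [← hφev]; exact hφf) ?_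
  · intro c y hc
    have : ev (c • y) = c • ev y := by
      apply hom_unique hp h (hev1 _)
      · intro a b
        change c * ev y (a ⊔ b) = (c * ev y a) ⊔ (c * ev y b) ∧
          c * ev y (a ⊓ b) = (c * ev y a) ⊓ (c * ev y b)
        rw [(hev1 y a b).1, (hev1 y a b).2]
        exact ⟨mul_max_of_nonneg _ _ hc.le, mul_min_of_nonneg _ _ hc.le⟩
      · intro e
        rw [hev2]
        change c * y e = c * ev y (δ e)
        rw [hev2]
    rw [this]
    rfl
  · intro l K hK
    obtain ⟨ψ, hψ1, hψ2, hψ3⟩ := exists_family hp h (fun i : Fin l.length => l[i.1]) K (by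
      intro x hx
      have := hK ⟨x, hx⟩
      rw [Fin.sum_univ_fun_getElem l (fun y => |y x| ^ p)]
      exact this)
    have h1 := hψ3 f hf
    have h2 : ∀ i, ψ i = ev (l[i.1]) := fun i =>
      hom_unique hp h (hψ1 i) (hev1 _) fun e => by rw [hψ2, hev2]
    simp only [h2] at h1
    rwa [Fin.sum_univ_fun_getElem l (fun y => |ev y f| ^ p)] at h1
  · intro η hη
    obtain ⟨g, F, hg, hF⟩ := dense_fin hp h ev hev1 hev2 f (η := η / 3) (by positivity)
    refine ⟨F, fun w hw hw1 => ?_⟩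
    have h1 : ev (xs + w) g = ev xs g := by
      apply hF
      intro e he
      rw [_root_.add_apply, hw e he, add_zero]
    have h2 : ev (xs + w) f - 1 = ev (xs + w) (f - g) - ev xs (f - g) := by
      rw [map_sub, map_sub, h1, ← hφev, hφf]
      ring
    rw [h2]
    have h3 : |ev (xs + w) (f - g)| ≤ 2 * (η / 3) := by
      calc |ev (xs + w) (f - g)| ≤ ‖ev (xs + w)‖ * ‖f - g‖ := (ev (xs + w)).le_opNorm _
        _ ≤ 2 * (η / 3) := by
            apply mul_le_mul _ hg.le (norm_nonneg _) (by norm_num)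
            rw [hev3]
            calc ‖xs + w‖ ≤ ‖xs‖ + ‖w‖ := norm_add_le _ _
              _ ≤ 2 := by linarith
    have h4 : |ev xs (f - g)| ≤ 1 * (η / 3) := by
      calc |ev xs (f - g)| ≤ ‖ev xs‖ * ‖f - g‖ := (ev xs).le_opNorm _
        _ ≤ 1 * (η / 3) := by
            apply mul_le_mul _ hg.le (norm_nonneg _) (by norm_num)
            rw [hev3]
            exact hxs
    calc |ev (xs + w) (f - g) - ev xs (f - g)| ≤ |ev (xs + w) (f - g)| + |ev xs (f - g)| :=
          abs_sub _ _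
      _ ≤ η := by linarith

end X190.FB
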